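import Mathlib
import Pool.Agent.Run7.h131.AD.Iface

/-!
# Project AD (helper131), piece BOR: Borel's theorem
-/

set_option autoImplicit false

namespace Run7.h743.AD

open Run7.h131.AD

attribute [local instance] Matrix.seminormedAddCommGroup in
/-- Siegel's lemma with `m` equations and `2 m` unknowns -/
theorem siegel (m : ℕ) (hm : 0 < m) (A : Fin m → Fin (2 * m) → ℤ) (M : ℝ) (hM : 1 ≤ M)
    (hA : ∀ i j, |((A i j : ℤ) : ℝ)| ≤ M) :
    ∃ t : Fin (2 * m) → ℤ, t ≠ 0 ∧ (∀ i, ∑ j, A i j * t j = 0) ∧ ∀ j, |((t j : ℤ) : ℝ)| ≤ 2 * m * M := by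
  have hM0 : (0 : ℝ) ≤ M := by linarith
  obtain ⟨t, ht0, ht1, ht2⟩ := Int.Matrix.exists_ne_zero_int_vec_norm_le (Matrix.of A)
    (by simp; omega) (by simpa using hm)
  refine ⟨t, ht0, ?_, ?_⟩
  · intro i
    have := congrFun ht1 i
    simpa [Matrix.mulVec, dotProduct] using this
  · intro j
    have hA' : ‖Matrix.of A‖ ≤ M := by
      rw [Matrix.norm_le_iff hM0]
      intro i j
      have := hA i j
      simpa [Int.norm_eq_abs] using this
    have h1 : ‖t j‖ ≤ ‖t‖ := norm_le_pi_norm t j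
    have hmr : (0 : ℝ) < m := by exact_mod_cast hm
    have h2 : ((Fintype.card (Fin m) : ℝ) / ((Fintype.card (Fin (2 * m)) : ℝ) - (Fintype.card (Fin m) : ℝ))) = 1 := by
      rw [Fintype.card_fin, Fintype.card_fin]
      push_cast
      rw [show (2 * (m : ℝ) - m) = m by ring, div_self hmr.ne']
    rw [h2, Real.rpow_one, Fintype.card_fin] at ht2
    have h3 : max 1 ‖Matrix.of A‖ ≤ M := max_le hM hA'
    rw [← Int.norm_eq_abs]
    calc ‖t j‖ ≤ ‖t‖ := h1
      _ ≤ ((2 * m : ℕ) : ℝ) * max 1 ‖Matrix.of A‖ := ht2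
      _ ≤ ((2 * m : ℕ) : ℝ) * M := mul_le_mul_of_nonneg_left h3 (Nat.cast_nonneg _)
      _ = 2 * m * M := by push_cast; ring

theorem siegelQ (a : ℕ → ℚ) (C : ℝ) (hC : 1 ≤ C) (ha : ∀ k, |((a k : ℚ) : ℝ)| ≤ C ^ (k + 1))
    (hd : ∀ n : ℕ, ∃ d : ℕ, 1 ≤ d ∧ (d : ℝ) ≤ C ^ (n + 1) ∧ ∀ k ≤ n, ∃ z : ℤ, (d : ℚ) * a k = z)
    (m : ℕ) (hm : 0 < m) :
    ∃ q : ℕ → ℤ, (∃ j, q j ≠ 0) ∧ (∀ j, 2 * m ≤ j → q j = 0) ∧
      (∀ j, |((q j : ℤ) : ℝ)| ≤ 2 * m * C ^ (6 * m + 2)) ∧
      ∀ k, 2 * m ≤ k → k < 3 * m → ∑ j ∈ Finset.range (2 * m), (q j : ℚ) * a (k - j) = 0 := by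
  obtain ⟨d, hd1, hd2, hd3⟩ := hd (3 * m)
  choose! z hz using hd3
  have hC0 : (0 : ℝ) ≤ C := by linarith
  have hzb : ∀ k ≤ 3 * m, |((z k : ℤ) : ℝ)| ≤ C ^ (6 * m + 2) := by
    intro k hk
    have h1 : ((z k : ℤ) : ℝ) = (d : ℝ) * ((a k : ℚ) : ℝ) := by
      have := hz k hk
      exact_mod_cast this.symm
    rw [h1, abs_mul, Nat.abs_cast]
    calc (d : ℝ) * |((a k : ℚ) : ℝ)| ≤ C ^ (3 * m + 1) * C ^ (k + 1) :=
          mul_le_mul hd2 (ha k) (abs_nonneg _) (pow_nonneg hC0 _)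
      _ ≤ C ^ (3 * m + 1) * C ^ (3 * m + 1) :=
          mul_le_mul_of_nonneg_left (pow_le_pow_right₀ hC (by omega)) (pow_nonneg hC0 _)
      _ = C ^ (6 * m + 2) := by rw [← pow_add]; congr 1; omega
  obtain ⟨t, ht0, ht1, ht2⟩ := siegel m hm (fun i j => z (2 * m + i - j)) (C ^ (6 * m + 2)) (one_le_pow₀ hC)
    (fun i j => hzb _ (by omega))
  have hdq : (d : ℚ) ≠ 0 := by exact_mod_cast (show d ≠ 0 by omega)
  refine ⟨fun j => if h : j < 2 * m then t ⟨j, h⟩ else 0, ?_, ?_, ?_, ?_⟩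
  · obtain ⟨j, hj⟩ := Function.ne_iff.mp ht0
    refine ⟨j, ?_⟩
    simp only [j.isLt, dif_pos, Fin.eta]
    exact hj
  · intro j hj
    simp only
    rw [dif_neg (by omega)]
  · intro j
    simp only
    split_ifs with h
    · exact ht2 _
    · simp
      positivity
  · intro k hk1 hk2
    have h1 := ht1 ⟨k - 2 * m, by omega⟩
    have h2 : (d : ℚ) * ∑ j ∈ Finset.range (2 * m),
        ((if h : j < 2 * m then t ⟨j, h⟩ else 0 : ℤ) : ℚ) * a (k - j) = 0 := by
      rw [Finset.mul_sum, Finset.sum_range]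
      have h3 : ∀ j : Fin (2 * m), (d : ℚ) * (((if h : (j : ℕ) < 2 * m then t ⟨j, h⟩ else 0 : ℤ) : ℚ) * a (k - j)) =
          ((z (2 * m + (k - 2 * m) - j) * t j : ℤ) : ℚ) := by
        intro j
        rw [dif_pos j.isLt, Fin.eta]
        have h4 := hz (k - j) (by omega)
        rw [show 2 * m + (k - 2 * m) - (j : ℕ) = k - j by omega]
        push_cast
        rw [← h4]
        ring
      rw [Finset.sum_congr rfl fun j _ => h3 j, ← Int.cast_sum]
      exact_mod_cast h1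
    exact (mul_eq_zero.mp h2).resolve_left hdq

theorem coeff_range {F : Type*} [CommSemiring F] (U V : PowerSeries F) (n : ℕ) :
    PowerSeries.coeff n (U * V) =
      ∑ j ∈ Finset.range (n + 1), PowerSeries.coeff j U * PowerSeries.coeff (n - j) V := by
  rw [PowerSeries.coeff_mul]
  exact Finset.Nat.sum_antidiagonal_eq_sum_range_succ
    (fun i j => PowerSeries.coeff i U * PowerSeries.coeff j V) n

theorem coeff_range' {F : Type*} [CommSemiring F] (U V : PowerSeries F) (l n : ℕ)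
    (hU : ∀ j, l ≤ j → PowerSeries.coeff j U = 0) (hn : l ≤ n) :
    PowerSeries.coeff n (U * V) =
      ∑ j ∈ Finset.range l, PowerSeries.coeff j U * PowerSeries.coeff (n - j) V := by
  rw [coeff_range]
  symm
  apply Finset.sum_subset
  · intro j hj
    simp only [Finset.mem_range] at hj ⊢
    omega
  · intro j _ hj2
    rw [hU j (by simpa using hj2), zero_mul]

/-- the tail of a product -/
theorem coeff_bound (U V : PowerSeries ℂ) (l : ℕ) (M K R : ℝ) (hR : 1 ≤ R) (hM : 0 ≤ M)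
    (hU0 : ∀ j, l ≤ j → PowerSeries.coeff j U = 0) (hU : ∀ j, ‖PowerSeries.coeff j U‖ ≤ M)
    (hV : ∀ k, ‖PowerSeries.coeff k V‖ * R ^ k ≤ K) (n : ℕ) (hn : l ≤ n) :
    ‖PowerSeries.coeff n (U * V)‖ * R ^ (n - l) ≤ l * (M * K) := by
  have hR0 : (0 : ℝ) ≤ R := by linarith
  rw [coeff_range' U V l n hU0 hn]
  calc ‖∑ j ∈ Finset.range l, PowerSeries.coeff j U * PowerSeries.coeff (n - j) V‖ * R ^ (n - l)
      ≤ (∑ j ∈ Finset.range l, ‖PowerSeries.coeff j U * PowerSeries.coeff (n - j) V‖) * R ^ (n - l) :=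
        mul_le_mul_of_nonneg_right (norm_sum_le _ _) (pow_nonneg hR0 _)
    _ = ∑ j ∈ Finset.range l, ‖PowerSeries.coeff j U * PowerSeries.coeff (n - j) V‖ * R ^ (n - l) := by
        rw [Finset.sum_mul]
    _ ≤ ∑ j ∈ Finset.range l, M * K := by
        refine Finset.sum_le_sum ?_
        intro j hj
        have hjl : j < l := Finset.mem_range.mp hj
        rw [norm_mul, mul_assoc]
        refine mul_le_mul (hU j) ?_ (by positivity) hM
        calc ‖PowerSeries.coeff (n - j) V‖ * R ^ (n - l) ≤ ‖PowerSeries.coeff (n - j) V‖ * R ^ (n - j) :=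
              mul_le_mul_of_nonneg_left (pow_le_pow_right₀ hR (by omega)) (norm_nonneg _)
          _ ≤ K := hV _
    _ = l * (M * K) := by rw [Finset.sum_const, Finset.card_range, nsmul_eq_mul]

theorem coeff_lead (U V : PowerSeries ℂ) (μ t : ℕ) (hU : ∀ j, j < μ → PowerSeries.coeff j U = 0)
    (hV : ∀ j, j < t → PowerSeries.coeff j V = 0) :
    PowerSeries.coeff (μ + t) (U * V) = PowerSeries.coeff μ U * PowerSeries.coeff t V := by
  rw [PowerSeries.coeff_mul]
  rw [Finset.sum_eq_single (μ, t)]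
  · rintro ⟨i, j⟩ hij hne
    have hij : i + j = μ + t := Finset.HasAntidiagonal.mem_antidiagonal.mp hij
    by_cases h : i < μ
    · simp [hU i h]
    · have hj : j < t := by
        by_contra hj
        apply hne
        have : i = μ := by omega
        have : j = t := by omega
        subst_vars
        rfl
      simp [hV j hj]
  · intro h
    exact absurd (Finset.HasAntidiagonal.mem_antidiagonal.mpr (show (μ, t).1 + (μ, t).2 = μ + t from rfl)) h

/-- the final estimate -/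
theorem final_est (C K g : ℝ) (hC : 1 ≤ C) (hg : 0 ≤ g) (hK : 0 ≤ K) (m t : ℕ) (hmt : 3 * m ≤ t)
    (h : g * ((16 * C ^ 4) ^ 3) ^ (t - 2 * m) ≤ C ^ (t + 1) * (2 * K * (2 * m) ^ 3 * C ^ (8 * m + 2))) :
    g * 2 ^ m ≤ 2 * K * C ^ 3 := by
  have hC0 : (0 : ℝ) < C := by linarith
  have hC4 : (1 : ℝ) ≤ 16 * C ^ 4 := by
    have : (1 : ℝ) ≤ C ^ 4 := one_le_pow₀ hC
    linarith
  have h1 : (16 * C ^ 4) ^ t ≤ ((16 * C ^ 4) ^ 3) ^ (t - 2 * m) := by
    rw [← pow_mul]
    exact pow_le_pow_right₀ hC4 (by omega)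
  have h2 : ((2 * m : ℝ)) ^ 3 ≤ 8 ^ t := by
    have e1 : (2 * m : ℝ) ≤ 2 ^ t := by
      have : 2 * m < 2 ^ t := lt_of_le_of_lt (by omega) (Nat.lt_two_pow_self (n := t))
      exact_mod_cast this.le
    calc ((2 * m : ℝ)) ^ 3 ≤ ((2 : ℝ) ^ t) ^ 3 := pow_le_pow_left₀ (by positivity) e1 3
      _ = 8 ^ t := by rw [← pow_mul, mul_comm, pow_mul]; norm_num
  have h3 : C ^ (t + 1) * C ^ (8 * m + 2) ≤ (C ^ 4) ^ t * C ^ 3 := by
    rw [← pow_add, ← pow_mul, ← pow_add]
    exact pow_le_pow_right₀ hC (by omega)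
  have h4 : g * (16 * C ^ 4) ^ t ≤ 2 * K * 8 ^ t * ((C ^ 4) ^ t * C ^ 3) := by
    calc g * (16 * C ^ 4) ^ t ≤ g * ((16 * C ^ 4) ^ 3) ^ (t - 2 * m) := mul_le_mul_of_nonneg_left h1 hg
      _ ≤ C ^ (t + 1) * (2 * K * (2 * m) ^ 3 * C ^ (8 * m + 2)) := h
      _ = 2 * K * (2 * m) ^ 3 * (C ^ (t + 1) * C ^ (8 * m + 2)) := by ring
      _ ≤ 2 * K * 8 ^ t * ((C ^ 4) ^ t * C ^ 3) := by
          refine mul_le_mul ?_ h3 (by positivity) (by positivity)
          exact mul_le_mul_of_nonneg_left h2 (by positivity)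
  have h5 : (16 * C ^ 4) ^ t = 2 ^ t * (8 ^ t * (C ^ 4) ^ t) := by
    rw [← mul_pow, ← mul_pow]; congr 1; ring
  rw [h5] at h4
  have h6 : (0 : ℝ) < 8 ^ t * (C ^ 4) ^ t := by positivity
  have h7 : g * 2 ^ t ≤ 2 * K * C ^ 3 := by
    have : (g * 2 ^ t) * (8 ^ t * (C ^ 4) ^ t) ≤ (2 * K * C ^ 3) * (8 ^ t * (C ^ 4) ^ t) := by
      calc (g * 2 ^ t) * (8 ^ t * (C ^ 4) ^ t) = g * (2 ^ t * (8 ^ t * (C ^ 4) ^ t)) := by ring
        _ ≤ 2 * K * 8 ^ t * ((C ^ 4) ^ t * C ^ 3) := h4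
        _ = (2 * K * C ^ 3) * (8 ^ t * (C ^ 4) ^ t) := by ring
    exact le_of_mul_le_mul_right this h6
  refine le_trans ?_ h7
  exact mul_le_mul_of_nonneg_left (pow_le_pow_right₀ (by norm_num) (by omega)) hg

/-- **Piece BOR.** Borel's theorem. -/
theorem t_BOR : S_BOR := by
  classical
  intro f hf1 hf2 hmer
  obtain ⟨C1, hC1, ha1⟩ := hf1
  obtain ⟨C2, hC2, hd2⟩ := hf2
  set C : ℝ := max C1 C2 with hCdef
  have hC : 1 ≤ C := le_trans hC1 (le_max_left _ _)
  have hC0 : (0 : ℝ) < C := by linarith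
  set a : ℕ → ℚ := fun k => PowerSeries.coeff k f with haf
  have ha : ∀ k, |((a k : ℚ) : ℝ)| ≤ C ^ (k + 1) := fun k =>
    (ha1 k).trans (pow_le_pow_left₀ (by linarith) (le_max_left _ _) _)
  have hd : ∀ n : ℕ, ∃ d : ℕ, 1 ≤ d ∧ (d : ℝ) ≤ C ^ (n + 1) ∧ ∀ k ≤ n, ∃ z : ℤ, (d : ℚ) * a k = z := by
    intro n
    obtain ⟨d, h1, h2, h3⟩ := hd2 n
    exact ⟨d, h1, h2.trans (pow_le_pow_left₀ (by linarith) (le_max_right _ _) _), h3⟩
  set R : ℝ := (16 * C ^ 4) ^ 3 with hRdef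
  have hR : 1 ≤ R := by
    have h1 : (1 : ℝ) ≤ C ^ 4 := one_le_pow₀ hC
    exact one_le_pow₀ (by linarith)
  obtain ⟨G, H, hG0, ⟨KG, hKG⟩, ⟨KH, hKH⟩, hGH⟩ := hmer R (by linarith)
  set K : ℝ := max KG KH with hKdef
  have hKG' : ∀ k, ‖PowerSeries.coeff k G‖ * R ^ k ≤ K := fun k => (hKG k).trans (le_max_left _ _)
  have hKH' : ∀ k, ‖PowerSeries.coeff k H‖ * R ^ k ≤ K := fun k => (hKH k).trans (le_max_right _ _)
  have hK : 0 ≤ K := le_trans (by positivity) (hKG' 0)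
  -- the order of `G`
  have hGex : ∃ k, PowerSeries.coeff k G ≠ 0 := by
    by_contra hcon
    push Not at hcon
    exact hG0 (PowerSeries.ext (by simpa using hcon))
  set μ := Nat.find hGex with hμ
  have hGμ : PowerSeries.coeff μ G ≠ 0 := Nat.find_spec hGex
  have hGlt : ∀ j, j < μ → PowerSeries.coeff j G = 0 := fun j hj => by
    by_contra hcon
    exact Nat.find_min hGex hj hcon
  have hg : 0 < ‖PowerSeries.coeff μ G‖ := norm_pos_iff.mpr hGμ
  -- the choice of `m`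
  obtain ⟨m0, hm0⟩ := pow_unbounded_of_one_lt (2 * K * C ^ 3 / ‖PowerSeries.coeff μ G‖) (by norm_num : (1 : ℝ) < 2)
  set m := m0 + 1 with hmdef
  have hm : 0 < m := by omega
  have hmbig : 2 * K * C ^ 3 < ‖PowerSeries.coeff μ G‖ * 2 ^ m := by
    rw [div_lt_iff₀ hg] at hm0
    calc 2 * K * C ^ 3 < 2 ^ m0 * ‖PowerSeries.coeff μ G‖ := hm0
      _ ≤ 2 ^ m * ‖PowerSeries.coeff μ G‖ :=
          mul_le_mul_of_nonneg_right (pow_le_pow_right₀ (by norm_num) (by omega)) hg.le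
      _ = ‖PowerSeries.coeff μ G‖ * 2 ^ m := mul_comm _ _
  obtain ⟨q, ⟨j0, hj0⟩, hq0, hqb, hqe⟩ := siegelQ a C hC ha hd m hm
  -- the polynomials
  set Q : Polynomial ℚ := ∑ j ∈ Finset.range (2 * m), Polynomial.monomial j (q j : ℚ) with hQ
  have hQc : ∀ j, Q.coeff j = (q j : ℚ) := by
    intro j
    rw [hQ, Polynomial.finsetSum_coeff]
    simp only [Polynomial.coeff_monomial]
    rw [Finset.sum_ite_eq' (Finset.range (2 * m)) j]
    split_ifs with h
    · rfl
    · rw [hq0 j (by simpa using h)]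
      simp
  set E0 : PS := (Q : PowerSeries ℚ) * f with hE0
  set P : Polynomial ℚ := PowerSeries.trunc (2 * m) E0 with hP
  have hPc : ∀ j, P.coeff j = if j < 2 * m then PowerSeries.coeff j E0 else 0 := fun j =>
    PowerSeries.coeff_trunc j (2 * m) E0
  refine ⟨P, Q, ?_, ?_⟩
  · intro h
    apply hj0
    have := hQc j0
    rw [h, Polynomial.coeff_zero] at this
    exact_mod_cast this.symm
  by_contra hne
  -- the coefficients of `Q f`
  have hE0c : ∀ k, 2 * m ≤ k → PowerSeries.coeff k E0 = ∑ j ∈ Finset.range (2 * m), (q j : ℚ) * a (k - j) := by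
    intro k hk
    rw [hE0, coeff_range' (Q : PowerSeries ℚ) f (2 * m) k ?_ hk]
    · refine Finset.sum_congr rfl ?_
      intro j _
      rw [Polynomial.coeff_coe, hQc]
    · intro j hj
      rw [Polynomial.coeff_coe, hQc, hq0 j hj]
      simp
  set E : PS := E0 - (P : PowerSeries ℚ) with hE
  have hEc : ∀ k, PowerSeries.coeff k E = if k < 2 * m then 0 else PowerSeries.coeff k E0 := by
    intro k
    rw [hE, map_sub, Polynomial.coeff_coe, hPc]
    split_ifs <;> simp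
  have hEex : ∃ k, PowerSeries.coeff k E ≠ 0 := by
    by_contra hcon
    push Not at hcon
    apply hne
    have : E = 0 := PowerSeries.ext (by simpa using hcon)
    exact sub_eq_zero.mp this
  set t := Nat.find hEex with ht
  have hEt : PowerSeries.coeff t E ≠ 0 := Nat.find_spec hEex
  have hElt : ∀ j, j < t → PowerSeries.coeff j E = 0 := fun j hj => by
    by_contra hcon
    exact Nat.find_min hEex hj hcon
  have ht3 : 3 * m ≤ t := by
    by_contra hcon
    push Not at hcon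
    apply hEt
    rw [hEc]
    split_ifs with h
    · rfl
    · rw [hE0c t (by omega)]
      exact hqe t (by omega) hcon
  have hEt' : PowerSeries.coeff t E = ∑ j ∈ Finset.range (2 * m), (q j : ℚ) * a (t - j) := by
    rw [hEc, if_neg (by omega), hE0c t (by omega)]
  -- the lower bound for the leading coefficient
  have hlow : 1 ≤ C ^ (t + 1) * |((PowerSeries.coeff t E : ℚ) : ℝ)| := by
    obtain ⟨d, hd1, hd2, hd3⟩ := hd t
    choose! z hz using hd3
    have e1 : (d : ℚ) * PowerSeries.coeff t E = ((∑ j ∈ Finset.range (2 * m), q j * z (t - j) : ℤ) : ℚ) := by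
      rw [hEt', Finset.mul_sum, Int.cast_sum]
      refine Finset.sum_congr rfl ?_
      intro j _
      push_cast
      rw [← hz (t - j) (by omega)]
      ring
    have e2 : (∑ j ∈ Finset.range (2 * m), q j * z (t - j) : ℤ) ≠ 0 := by
      intro h0
      rw [h0, Int.cast_zero] at e1
      rcases mul_eq_zero.mp e1 with h | h
      · have : d = 0 := by exact_mod_cast h
        omega
      · exact hEt h
    have e3 : (1 : ℝ) ≤ |((∑ j ∈ Finset.range (2 * m), q j * z (t - j) : ℤ) : ℝ)| := by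
      rw [← Int.cast_abs]
      exact_mod_cast Int.one_le_abs e2
    have e4 : ((∑ j ∈ Finset.range (2 * m), q j * z (t - j) : ℤ) : ℝ) =
        (d : ℝ) * ((PowerSeries.coeff t E : ℚ) : ℝ) := by
      have := congrArg (fun x : ℚ => (x : ℝ)) e1
      simp only [Rat.cast_mul, Rat.cast_natCast, Rat.cast_intCast] at this
      exact this.symm
    rw [e4, abs_mul, Nat.abs_cast] at e3
    exact e3.trans (mul_le_mul_of_nonneg_right hd2 (abs_nonneg _))
  -- the upper bound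
  set φ := PowerSeries.map (algebraMap ℚ ℂ) with hφ
  have hφn : ∀ (x : PS) (k : ℕ), ‖PowerSeries.coeff k (φ x)‖ = |((PowerSeries.coeff k x : ℚ) : ℝ)| := by
    intro x k
    rw [hφ, PowerSeries.coeff_map, eq_ratCast, Complex.norm_ratCast]
  have hprod : G * φ E = φ (Q : PowerSeries ℚ) * H - φ (P : PowerSeries ℚ) * G := by
    rw [hE, hE0, map_sub, map_mul, ← hGH]
    ring
  set M : ℝ := 2 * m * C ^ (6 * m + 2) with hMdef
  have hmr : (1 : ℝ) ≤ 2 * m := by
    have : (1 : ℝ) ≤ m := by exact_mod_cast hm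
    linarith
  have hM0 : 0 ≤ M := by positivity
  set M' : ℝ := 2 * m * (M * C ^ (2 * m)) with hM'def
  have hMM' : M ≤ M' := by
    have h1 : (1 : ℝ) ≤ C ^ (2 * m) := one_le_pow₀ hC
    have h2 : M ≤ M * C ^ (2 * m) := le_mul_of_one_le_right hM0 h1
    exact h2.trans (le_mul_of_one_le_left (by positivity) hmr)
  have hM'0 : 0 ≤ M' := hM0.trans hMM'
  have hQn : ∀ j, ‖PowerSeries.coeff j (φ (Q : PowerSeries ℚ))‖ ≤ M' := by
    intro j
    rw [hφn, Polynomial.coeff_coe, hQc]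
    refine le_trans ?_ hMM'
    have := hqb j
    simpa using this
  have hPn : ∀ j, ‖PowerSeries.coeff j (φ (P : PowerSeries ℚ))‖ ≤ M' := by
    intro k
    rw [hφn, Polynomial.coeff_coe, hPc]
    split_ifs with h
    · rw [hE0, coeff_range, Rat.cast_sum]
      simp only [Rat.cast_mul]
      calc |∑ j ∈ Finset.range (k + 1), ((PowerSeries.coeff j (Q : PowerSeries ℚ) : ℚ) : ℝ) *
            ((PowerSeries.coeff (k - j) f : ℚ) : ℝ)|
          ≤ ∑ j ∈ Finset.range (k + 1), |((PowerSeries.coeff j (Q : PowerSeries ℚ) : ℚ) : ℝ) *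
            ((PowerSeries.coeff (k - j) f : ℚ) : ℝ)| := Finset.abs_sum_le_sum_abs _ _
        _ ≤ ∑ j ∈ Finset.range (k + 1), M * C ^ (2 * m) := by
            refine Finset.sum_le_sum ?_
            intro j _
            rw [abs_mul]
            refine mul_le_mul ?_ ?_ (abs_nonneg _) hM0
            · rw [Polynomial.coeff_coe, hQc]
              have := hqb j
              simpa using this
            · refine (ha (k - j)).trans ?_
              exact pow_le_pow_right₀ hC (by omega)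
        _ = ((k + 1 : ℕ) : ℝ) * (M * C ^ (2 * m)) := by
            rw [Finset.sum_const, Finset.card_range, nsmul_eq_mul]
        _ ≤ M' := by
            rw [hM'def]
            refine mul_le_mul_of_nonneg_right ?_ (by positivity)
            have : k + 1 ≤ 2 * m := by omega
            exact_mod_cast this
    · simpa using hM'0
  have hQ0 : ∀ j, 2 * m ≤ j → PowerSeries.coeff j (φ (Q : PowerSeries ℚ)) = 0 := by
    intro j hj
    rw [hφ, PowerSeries.coeff_map, Polynomial.coeff_coe, hQc, hq0 j hj]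
    simp
  have hP0 : ∀ j, 2 * m ≤ j → PowerSeries.coeff j (φ (P : PowerSeries ℚ)) = 0 := by
    intro j hj
    rw [hφ, PowerSeries.coeff_map, Polynomial.coeff_coe, hPc, if_neg (by omega)]
    simp
  have b1 := coeff_bound (φ (Q : PowerSeries ℚ)) H (2 * m) M' K R hR hM'0 hQ0 hQn hKH' (μ + t) (by omega)
  have b2 := coeff_bound (φ (P : PowerSeries ℚ)) G (2 * m) M' K R hR hM'0 hP0 hPn hKG' (μ + t) (by omega)
  have hφlt : ∀ j, j < t → PowerSeries.coeff j (φ E) = 0 := by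
    intro j hj
    rw [hφ, PowerSeries.coeff_map, hElt j hj, map_zero]
  have hlead := coeff_lead G (φ E) μ t hGlt hφlt
  have hR0 : (0 : ℝ) ≤ R := by linarith
  have b3 : ‖PowerSeries.coeff μ G‖ * |((PowerSeries.coeff t E : ℚ) : ℝ)| * R ^ (μ + t - 2 * m) ≤
      2 * K * (2 * m) ^ 3 * C ^ (8 * m + 2) := by
    rw [← hφn, ← norm_mul, ← hlead, hprod, map_sub]
    calc ‖PowerSeries.coeff (μ + t) (φ (Q : PowerSeries ℚ) * H) -
          PowerSeries.coeff (μ + t) (φ (P : PowerSeries ℚ) * G)‖ * R ^ (μ + t - 2 * m)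
        ≤ (‖PowerSeries.coeff (μ + t) (φ (Q : PowerSeries ℚ) * H)‖ +
          ‖PowerSeries.coeff (μ + t) (φ (P : PowerSeries ℚ) * G)‖) * R ^ (μ + t - 2 * m) :=
          mul_le_mul_of_nonneg_right (norm_sub_le _ _) (pow_nonneg hR0 _)
      _ ≤ ((2 * m : ℕ) : ℝ) * (M' * K) + ((2 * m : ℕ) : ℝ) * (M' * K) := by
          rw [add_mul]; exact add_le_add b1 b2
      _ = 2 * K * (2 * m) ^ 3 * (C ^ (6 * m + 2) * C ^ (2 * m)) := by
          rw [hM'def, hMdef]; push_cast; ring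
      _ = 2 * K * (2 * m) ^ 3 * C ^ (8 * m + 2) := by
          rw [← pow_add]; congr 2; omega
  have b4 : ‖PowerSeries.coeff μ G‖ * R ^ (t - 2 * m) ≤ C ^ (t + 1) * (2 * K * (2 * m) ^ 3 * C ^ (8 * m + 2)) := by
    calc ‖PowerSeries.coeff μ G‖ * R ^ (t - 2 * m)
        ≤ (‖PowerSeries.coeff μ G‖ * R ^ (μ + t - 2 * m)) * 1 := by
          rw [mul_one]
          exact mul_le_mul_of_nonneg_left (pow_le_pow_right₀ hR (by omega)) hg.le
      _ ≤ (‖PowerSeries.coeff μ G‖ * R ^ (μ + t - 2 * m)) *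
            (C ^ (t + 1) * |((PowerSeries.coeff t E : ℚ) : ℝ)|) :=
          mul_le_mul_of_nonneg_left hlow (by positivity)
      _ = C ^ (t + 1) * (‖PowerSeries.coeff μ G‖ * |((PowerSeries.coeff t E : ℚ) : ℝ)| * R ^ (μ + t - 2 * m)) := by
          ring
      _ ≤ C ^ (t + 1) * (2 * K * (2 * m) ^ 3 * C ^ (8 * m + 2)) :=
          mul_le_mul_of_nonneg_left b3 (by positivity)
  have b5 := final_est C K ‖PowerSeries.coeff μ G‖ hC hg.le hK m t ht3 b4
  linarith

end Run7.h743.AD
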