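import Mathlib
import Pool.Agent.Run7.h131.AD.Iface

/-!
# Project AD (helper131), piece DEN: exponential bound for the common denominators
-/

set_option autoImplicit false

namespace Run7.h743.AD

open Run7.h131.AD

open Classical in
/-- the exponents -/
noncomputable def ee (p0 : ℕ) (bad : Set ℕ) (n p : ℕ) : ℕ :=
  if p < p0 ∨ p ∈ bad then padicValNat p n.factorial else padicValNat p (n / p).factorial

/-- the common denominator -/
noncomputable def dd (B p0 : ℕ) (bad : Set ℕ) (n : ℕ) : ℕ :=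
  B ^ (n + 1) * ∏ p ∈ (Finset.range (n + 1)).filter Nat.Prime, p ^ ee p0 bad n p

theorem dd_ne (B p0 : ℕ) (bad : Set ℕ) (n : ℕ) (hB : 1 ≤ B) : dd B p0 bad n ≠ 0 := by
  unfold dd
  refine mul_ne_zero (pow_ne_zero _ (by omega)) ?_
  refine Finset.prod_ne_zero_iff.mpr ?_
  intro p hp
  exact pow_ne_zero _ (Finset.mem_filter.mp hp).2.ne_zero

theorem ee_zero (p0 : ℕ) (bad : Set ℕ) (n p : ℕ) (hp : p.Prime) (h : n < p) : ee p0 bad n p = 0 := by
  have : Fact p.Prime := ⟨hp⟩
  unfold ee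
  split_ifs
  · apply padicValNat.eq_zero_of_not_dvd
    intro hd
    exact absurd ((hp.dvd_factorial).mp hd) (by omega)
  · rw [Nat.div_eq_of_lt h]
    simp

theorem dd_val (B p0 : ℕ) (bad : Set ℕ) (n : ℕ) (hB : 1 ≤ B) (p : ℕ) (hp : p.Prime) :
    (n + 1) * padicValNat p B + ee p0 bad n p ≤ padicValNat p (dd B p0 bad n) := by
  have : Fact p.Prime := ⟨hp⟩
  rw [← padicValNat_dvd_iff_le (dd_ne B p0 bad n hB)]
  unfold dd
  rw [pow_add]
  refine Nat.mul_dvd_mul ?_ ?_
  · rw [mul_comm, pow_mul]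
    exact pow_dvd_pow_of_dvd pow_padicValNat_dvd _
  · by_cases h : n < p
    · rw [ee_zero p0 bad n p hp h]
      simp
    · exact Finset.dvd_prod_of_mem (fun p => p ^ ee p0 bad n p)
        (Finset.mem_filter.mpr ⟨Finset.mem_range.mpr (by omega), hp⟩)

theorem den_val (p : ℕ) (hp : p.Prime) (x : ℚ) (m : ℕ) (h : -(m : ℤ) ≤ padicValRat p x) :
    padicValNat p x.den ≤ m := by
  have : Fact p.Prime := ⟨hp⟩
  rw [padicValRat_def] at h
  by_cases hd : p ∣ x.den
  · have h1 : padicValInt p x.num = 0 := by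
      apply padicValInt.eq_zero_of_not_dvd
      intro h2
      have h3 : p ∣ x.num.natAbs := Int.natCast_dvd.mp h2
      have h4 := Nat.dvd_gcd h3 hd
      rw [x.reduced] at h4
      exact hp.one_lt.ne' (Nat.dvd_one.mp h4)
    rw [h1] at h
    simp only [Nat.cast_zero, zero_sub] at h
    omega
  · rw [padicValNat.eq_zero_of_not_dvd hd]
    exact Nat.zero_le _

theorem ZI_val (p : ℕ) (hp : p.Prime) (x : ℚ) (h : ZI p x) : 0 ≤ padicValRat p x := by
  have : Fact p.Prime := ⟨hp⟩
  by_cases hx : x = 0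
  · rw [hx]; simp
  obtain ⟨a, b, hb, hxab⟩ := h
  have hb0 : b ≠ 0 := by
    rintro rfl
    exact hb (dvd_zero _)
  have ha0 : a ≠ 0 := by
    rintro rfl
    apply hx
    rw [hxab]; simp
  rw [hxab, padicValRat.div (by exact_mod_cast ha0) (by exact_mod_cast hb0), padicValRat.of_int, padicValRat.of_int,
    padicValInt.eq_zero_of_not_dvd hb]
  simp

theorem fac_val (p : ℕ) (hp : p.Prime) (n : ℕ) :
    padicValNat p n.factorial = padicValNat p (n / p).factorial + n / p := by
  have : Fact p.Prime := ⟨hp⟩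
  rw [← padicValNat_mul_div_factorial (p := p) n, padicValNat_factorial_mul]

theorem fac_mono (p : ℕ) (hp : p.Prime) {k n : ℕ} (h : k ≤ n) :
    padicValNat p k.factorial ≤ padicValNat p n.factorial := by
  have : Fact p.Prime := ⟨hp⟩
  rw [← padicValNat_dvd_iff_le (Nat.factorial_ne_zero n)]
  exact pow_padicValNat_dvd.trans (Nat.factorial_dvd_factorial h)

theorem fac_le (p : ℕ) (hp : p.Prime) (n : ℕ) : (p - 1) * padicValNat p n.factorial ≤ n := by
  have : Fact p.Prime := ⟨hp⟩
  rw [sub_one_mul_padicValNat_factorial]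
  exact Nat.sub_le _ _

/-- `v_p(n!) ≤ 2 n / p` -/
theorem fac_real (p : ℕ) (hp : p.Prime) (n : ℕ) :
    (padicValNat p n.factorial : ℝ) ≤ 2 * n / p := by
  have h1 : (((p - 1 : ℕ) : ℝ)) * (padicValNat p n.factorial : ℝ) ≤ n := by exact_mod_cast fac_le p hp n
  rw [Nat.cast_sub hp.one_le] at h1
  have h2 : (2 : ℝ) ≤ p := by exact_mod_cast hp.two_le
  have h3 : (0 : ℝ) ≤ (padicValNat p n.factorial : ℝ) := Nat.cast_nonneg _
  rw [le_div_iff₀ (by linarith)]
  push_cast at h1
  nlinarith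

theorem ee_good (p0 : ℕ) (bad : Set ℕ) (n p : ℕ) (hp : p.Prime) (h : ¬ (p < p0 ∨ p ∈ bad)) :
    (ee p0 bad n p : ℝ) ≤ n * (2 / (p : ℝ) ^ 2) := by
  unfold ee
  rw [if_neg h]
  have h1 := fac_real p hp (n / p)
  have h2 : ((n / p : ℕ) : ℝ) ≤ (n : ℝ) / p := Nat.cast_div_le
  have h3 : (0 : ℝ) < p := by exact_mod_cast hp.pos
  calc (padicValNat p (n / p).factorial : ℝ) ≤ 2 * ((n / p : ℕ) : ℝ) / p := h1
    _ ≤ 2 * ((n : ℝ) / p) / p := by gcongr
    _ = n * (2 / (p : ℝ) ^ 2) := by field_simp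

theorem ee_bad (p0 : ℕ) (bad : Set ℕ) (n p : ℕ) (hp : p.Prime) (h : p < p0 ∨ p ∈ bad) :
    (ee p0 bad n p : ℝ) ≤ n * (2 / (p : ℝ)) := by
  unfold ee
  rw [if_pos h]
  have h1 := fac_real p hp n
  have h3 : (0 : ℝ) < p := by exact_mod_cast hp.pos
  calc (padicValNat p n.factorial : ℝ) ≤ 2 * n / p := h1
    _ = n * (2 / (p : ℝ)) := by ring

theorem summable_log_sq : Summable fun n : ℕ => Real.log (n : ℝ) / (n : ℝ) ^ 2 := by
  have h1 : Summable fun n : ℕ => 2 * ((n : ℝ) ^ (-(3 / 2) : ℝ)) :=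
    (Real.summable_nat_rpow.mpr (by norm_num)).mul_left 2
  refine Summable.of_nonneg_of_le ?_ ?_ h1
  · intro n
    exact div_nonneg (Real.log_natCast_nonneg n) (by positivity)
  · intro n
    rcases Nat.eq_zero_or_pos n with h | h
    · subst h
      simp
    · have hn : (0 : ℝ) < n := by exact_mod_cast h
      have h2 := Real.log_le_rpow_div hn.le (show (0 : ℝ) < 1 / 2 by norm_num)
      have h3 : (n : ℝ) ^ (-(3 / 2) : ℝ) = (n : ℝ) ^ (1 / 2 : ℝ) / (n : ℝ) ^ 2 := by
        rw [← Real.rpow_natCast, ← Real.rpow_sub hn]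
        norm_num
      rw [h3, ← mul_div_assoc]
      gcongr
      calc Real.log n ≤ (n : ℝ) ^ (1 / 2 : ℝ) / (1 / 2) := h2
        _ = 2 * (n : ℝ) ^ (1 / 2 : ℝ) := by ring

theorem den_dvd (x : ℚ) (d : ℕ) (hd : d ≠ 0) (h : ∀ p : ℕ, p.Prime → padicValNat p x.den ≤ padicValNat p d) :
    ∃ z : ℤ, (d : ℚ) * x = z := by
  have h1 : x.den ∣ d := by
    rw [← Nat.factorization_prime_le_iff_dvd x.den_nz hd]
    intro p hp
    rw [Nat.factorization_def _ hp, Nat.factorization_def _ hp]
    exact h p hp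
  obtain ⟨c, hc⟩ := h1
  refine ⟨c * x.num, ?_⟩
  have h2 : (x.den : ℚ) * x = x.num := by
    rw [mul_comm]; exact Rat.mul_den_eq_num x
  rw [hc]
  push_cast
  rw [mul_comm (x.den : ℚ) (c : ℚ), mul_assoc, h2]

/-- **Piece DEN.** -/
theorem t_DEN : S_DEN := by
  classical
  intro a B p0 bad hB h1 h2 h3 hs
  -- the three majorants
  set h₁ : ℕ → ℝ := fun p => if p < p0 then 2 * (Real.log p / p) else 0 with hh₁
  set h₂ : ℕ → ℝ := fun p => 2 * Set.indicator {p : ℕ | p.Prime ∧ p ∈ bad} (fun p : ℕ => Real.log p / p) p with hh₂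
  set h₃ : ℕ → ℝ := fun p => 2 * (Real.log p / (p : ℝ) ^ 2) with hh₃
  have s₁ : Summable h₁ := by
    refine summable_of_ne_finset_zero (s := Finset.range p0) ?_
    intro p hp
    simp only [hh₁]
    rw [if_neg (by simpa using hp)]
  have s₂ : Summable h₂ := by
    refine Summable.mul_left 2 ?_
    exact summable_subtype_iff_indicator.mp hs
  have s₃ : Summable h₃ := summable_log_sq.mul_left 2
  have n₁ : ∀ p, 0 ≤ h₁ p := by
    intro p
    simp only [hh₁]
    split_ifs
    · exact mul_nonneg (by norm_num) (div_nonneg (Real.log_natCast_nonneg p) (Nat.cast_nonneg p))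
    · exact le_refl _
  have n₂ : ∀ p, 0 ≤ h₂ p := by
    intro p
    simp only [hh₂]
    refine mul_nonneg (by norm_num) (Set.indicator_nonneg ?_ p)
    intro q _
    exact div_nonneg (Real.log_natCast_nonneg q) (Nat.cast_nonneg q)
  have n₃ : ∀ p, 0 ≤ h₃ p := by
    intro p
    simp only [hh₃]
    exact mul_nonneg (by norm_num) (div_nonneg (Real.log_natCast_nonneg p) (by positivity))
  have sg : Summable fun p => h₁ p + h₂ p + h₃ p := (s₁.add s₂).add s₃
  set S : ℝ := ∑' p, (h₁ p + h₂ p + h₃ p) with hS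
  have hS0 : 0 ≤ S := tsum_nonneg fun p => add_nonneg (add_nonneg (n₁ p) (n₂ p)) (n₃ p)
  have hB1 : (1 : ℝ) ≤ B := by exact_mod_cast hB
  have key : ∀ n p : ℕ, p.Prime → (ee p0 bad n p : ℝ) * Real.log p ≤ n * (h₁ p + h₂ p + h₃ p) := by
    intro n p hp
    have hlog : 0 ≤ Real.log p := Real.log_natCast_nonneg p
    have hpp : (0 : ℝ) < p := by exact_mod_cast hp.pos
    by_cases hb : p < p0 ∨ p ∈ bad
    · have e1 := ee_bad p0 bad n p hp hb
      have e2 : 2 * (Real.log p / p) ≤ h₁ p + h₂ p + h₃ p := by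
        rcases hb with hb | hb
        · have e3 : h₁ p = 2 * (Real.log p / p) := by simp only [hh₁]; rw [if_pos hb]
          have := n₂ p
          have := n₃ p
          linarith
        · have e3 : h₂ p = 2 * (Real.log p / p) := by
            simp only [hh₂]
            rw [Set.indicator_of_mem (show p ∈ {p : ℕ | p.Prime ∧ p ∈ bad} from ⟨hp, hb⟩)]
          have := n₁ p
          have := n₃ p
          linarith
      calc (ee p0 bad n p : ℝ) * Real.log p ≤ (n * (2 / (p : ℝ))) * Real.log p :=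
            mul_le_mul_of_nonneg_right e1 hlog
        _ = n * (2 * (Real.log p / p)) := by ring
        _ ≤ n * (h₁ p + h₂ p + h₃ p) := mul_le_mul_of_nonneg_left e2 (Nat.cast_nonneg n)
    · have e1 := ee_good p0 bad n p hp hb
      have e2 : 2 * (Real.log p / (p : ℝ) ^ 2) ≤ h₁ p + h₂ p + h₃ p := by
        have := n₁ p
        have := n₂ p
        have e3 : h₃ p = 2 * (Real.log p / (p : ℝ) ^ 2) := rfl
        linarith
      calc (ee p0 bad n p : ℝ) * Real.log p ≤ (n * (2 / (p : ℝ) ^ 2)) * Real.log p :=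
            mul_le_mul_of_nonneg_right e1 hlog
        _ = n * (2 * (Real.log p / (p : ℝ) ^ 2)) := by ring
        _ ≤ n * (h₁ p + h₂ p + h₃ p) := mul_le_mul_of_nonneg_left e2 (Nat.cast_nonneg n)
  refine ⟨B * Real.exp S, ?_, ?_⟩
  · have : 1 ≤ Real.exp S := Real.one_le_exp hS0
    nlinarith
  intro n
  refine ⟨dd B p0 bad n, Nat.one_le_iff_ne_zero.mpr (dd_ne B p0 bad n hB), ?_, ?_⟩
  · unfold dd
    push_cast
    rw [mul_pow]
    refine mul_le_mul_of_nonneg_left ?_ (by positivity)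
    have e1 : (∏ p ∈ (Finset.range (n + 1)).filter Nat.Prime, (p : ℝ) ^ ee p0 bad n p) =
        Real.exp (∑ p ∈ (Finset.range (n + 1)).filter Nat.Prime, (ee p0 bad n p : ℝ) * Real.log p) := by
      rw [Real.exp_sum]
      refine Finset.prod_congr rfl ?_
      intro p hp
      have hpp : (0 : ℝ) < p := by exact_mod_cast (Finset.mem_filter.mp hp).2.pos
      rw [mul_comm, ← Real.rpow_def_of_pos hpp, Real.rpow_natCast]
    rw [e1, ← Real.exp_nat_mul]
    apply Real.exp_le_exp.mpr
    calc ∑ p ∈ (Finset.range (n + 1)).filter Nat.Prime, (ee p0 bad n p : ℝ) * Real.log p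
        ≤ ∑ p ∈ (Finset.range (n + 1)).filter Nat.Prime, (n : ℝ) * (h₁ p + h₂ p + h₃ p) :=
          Finset.sum_le_sum fun p hp => key n p (Finset.mem_filter.mp hp).2
      _ = n * ∑ p ∈ (Finset.range (n + 1)).filter Nat.Prime, (h₁ p + h₂ p + h₃ p) := by rw [Finset.mul_sum]
      _ ≤ n * S := mul_le_mul_of_nonneg_left
          (sg.sum_le_tsum _ fun p _ => add_nonneg (add_nonneg (n₁ p) (n₂ p)) (n₃ p)) (Nat.cast_nonneg n)
      _ ≤ ((n + 1 : ℕ) : ℝ) * S := by
          push_cast
          nlinarith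
  · intro k hk
    by_cases hak : a k = 0
    · exact ⟨0, by rw [hak]; simp⟩
    refine den_dvd (a k) _ (dd_ne B p0 bad n hB) ?_
    intro p hp
    have : Fact p.Prime := ⟨hp⟩
    refine le_trans ?_ (dd_val B p0 bad n hB p hp)
    have hkf : (k.factorial : ℚ) ≠ 0 := by exact_mod_cast Nat.factorial_ne_zero k
    have hBq : (B : ℚ) ≠ 0 := by exact_mod_cast (show B ≠ 0 by omega)
    apply den_val p hp
    by_cases hb : p < p0 ∨ p ∈ bad
    · -- use the first hypothesis
      have e1 : ee p0 bad n p = padicValNat p n.factorial := by unfold ee; rw [if_pos hb]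
      obtain ⟨N, hN⟩ := h1 k
      have e2 : 0 ≤ padicValRat p ((B : ℚ) ^ (k + 1) * (k.factorial : ℚ) * a k) := by
        rw [hN, padicValRat.of_int]
        exact Int.natCast_nonneg _
      rw [padicValRat.mul (mul_ne_zero (pow_ne_zero _ hBq) hkf) hak, padicValRat.mul (pow_ne_zero _ hBq) hkf,
        padicValRat.pow, padicValRat.of_nat, padicValRat.of_nat] at e2
      have e3 := fac_mono p hp hk
      have e4 : (k + 1) * padicValNat p B ≤ (n + 1) * padicValNat p B := Nat.mul_le_mul_right _ (by omega)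
      rw [e1]
      push_cast at e2 ⊢
      have e4' : ((k : ℤ) + 1) * (padicValNat p B : ℤ) ≤ ((n : ℤ) + 1) * (padicValNat p B : ℤ) := by
        exact_mod_cast e4
      have e3' : (padicValNat p k.factorial : ℤ) ≤ (padicValNat p n.factorial : ℤ) := by exact_mod_cast e3
      linarith
    · have e1 : ee p0 bad n p = padicValNat p (n / p).factorial := by unfold ee; rw [if_neg hb]
      push Not at hb
      obtain ⟨y, hy, hxy⟩ := h3 p hb.1 hp hb.2 k
      have hpq : (p : ℚ) ≠ 0 := by exact_mod_cast hp.ne_zero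
      have hy0 : y ≠ 0 := by
        rintro rfl
        rw [mul_zero] at hxy
        exact (mul_ne_zero hkf hak) hxy
      have e2 := ZI_val p hp y hy
      have e3 := congrArg (padicValRat p) hxy
      rw [padicValRat.mul hkf hak, padicValRat.mul (pow_ne_zero _ hpq) hy0, padicValRat.pow,
        padicValRat.of_nat, padicValRat.self hp.one_lt] at e3
      have e5 := fac_val p hp k
      have e6 := fac_mono p hp (Nat.div_le_div_right (c := p) hk)
      rw [e1]
      simp only [Nat.cast_add, Nat.cast_mul, Nat.cast_one]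
      have e7 : (padicValNat p k.factorial : ℤ) = (padicValNat p (k / p).factorial : ℤ) + ((k / p : ℕ) : ℤ) := by
        exact_mod_cast e5
      have e8 : (padicValNat p (k / p).factorial : ℤ) ≤ (padicValNat p (n / p).factorial : ℤ) := by exact_mod_cast e6
      have e9 : (0 : ℤ) ≤ ((n : ℤ) + 1) * (padicValNat p B : ℤ) := by positivity
      rw [mul_one] at e3
      linarith

end Run7.h743.AD
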